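import Mathlib
import Pool.Agent.V11210.NA.Mv
import Pool.Agent.V11015.FS.General

/-! Values of polynomials at `(x, t)`, `x` with a transcendence measure, `t` arbitrary: errors of machines. -/

set_option autoImplicit false

namespace Pool.Agent.V11118.ZR

open Finset Pool.Agent Polynomial Pool.Agent.V11015.FS Pool.Agent.V60.FSP
open Pool.Agent.TH456.TM (MeasT)
open Pool.Agent.V11210.NA (AF fn fn_inj box near_ev)

/-- the value `P(x, t)` -/
noncomputable def rv {r : ℕ} (x : ℝ) (t : Fin r → ℝ) (P : MvPolynomial (Fin (r + 1)) ℤ) : ℝ :=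
  P.eval₂ (Int.castRingHom ℝ) (Fin.cons x t : Fin (r + 1) → ℝ)

/-- the value `P(X, y)` -/
noncomputable def av {r : ℕ} (y : Fin r → AF) (P : MvPolynomial (Fin (r + 1)) ℤ) : AF :=
  P.eval₂ (Int.castRingHom AF) (Fin.cons (fn X) y : Fin (r + 1) → AF)

lemma rv_complex {r : ℕ} (x : ℝ) (t : Fin r → ℝ) (P : MvPolynomial (Fin (r + 1)) ℤ) :
    P.eval₂ (Int.castRingHom ℂ) (Fin.cons (x : ℂ) (fun i => (t i : ℂ)) : Fin (r + 1) → ℂ) =
      ((rv x t P : ℝ) : ℂ) := by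
  have h := MvPolynomial.eval₂_comp_left Complex.ofRealHom (Int.castRingHom ℝ)
    (Fin.cons x t : Fin (r + 1) → ℝ) P
  rw [rv]
  change _ = Complex.ofRealHom _
  rw [h]
  have e1 : Complex.ofRealHom.comp (Int.castRingHom ℝ) = Int.castRingHom ℂ := RingHom.ext_int _ _
  have e2 : (Fin.cons (x : ℂ) (fun i => (t i : ℂ)) : Fin (r + 1) → ℂ) =
      Complex.ofRealHom ∘ (Fin.cons x t : Fin (r + 1) → ℝ) := by
    funext i
    refine Fin.cases ?_ (fun j => ?_) i
    · simp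
    · simp
  rw [e1, e2]

lemma rv_le {r : ℕ} (x : ℝ) (t : Fin r → ℝ) (T V : ℝ) (ht : ∀ i, |t i| ≤ T) (hV : 1 + |x| + |T| ≤ V)
    (D : ℕ) (H : ℝ) (hH : 0 ≤ H) (P : MvPolynomial (Fin (r + 1)) ℤ) (hP : P.totalDegree ≤ D)
    (hPH : ∀ s, |((P.coeff s : ℤ) : ℝ)| ≤ H) : |rv x t P| ≤ ((box (r + 1) D).card : ℝ) * (H * V ^ D) := by
  have hV1 : 1 ≤ V := by linarith [abs_nonneg x, abs_nonneg T]
  rw [rv, Pool.Agent.V11210.NA.eval₂_eq_sum _ _ hP]
  refine (Finset.abs_sum_le_sum_abs _ _).trans ?_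
  have h1 : ∀ s ∈ box (r + 1) D, |(Int.castRingHom ℝ) (P.coeff s) *
      ∏ i, (Fin.cons x t : Fin (r + 1) → ℝ) i ^ s i| ≤ H * V ^ D := by
    intro s hs
    rw [abs_mul]
    have h2 : ‖∏ i, ((Fin.cons (x : ℂ) (fun i => (t i : ℂ)) : Fin (r + 1) → ℂ) i) ^ s i‖ ≤ V ^ D := by
      apply Pool.Agent.V11210.NA.norm_mon_le hV1 _ hs
      intro i
      refine Fin.cases ?_ (fun j => ?_) i
      · rw [Fin.cons_zero, Complex.norm_real, Real.norm_eq_abs]
        linarith [abs_nonneg T]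
      · rw [Fin.cons_succ, Complex.norm_real, Real.norm_eq_abs]
        linarith [abs_nonneg x, ht j, le_abs_self T]
    have h3 : ‖∏ i, ((Fin.cons (x : ℂ) (fun i => (t i : ℂ)) : Fin (r + 1) → ℂ) i) ^ s i‖ =
        |∏ i, (Fin.cons x t : Fin (r + 1) → ℝ) i ^ s i| := by
      rw [norm_prod, Finset.abs_prod]
      refine Finset.prod_congr rfl fun i _ => ?_
      refine Fin.cases ?_ (fun j => ?_) i
      · rw [Fin.cons_zero, Fin.cons_zero, norm_pow, Complex.norm_real, Real.norm_eq_abs, abs_pow]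
      · rw [Fin.cons_succ, Fin.cons_succ, norm_pow, Complex.norm_real, Real.norm_eq_abs, abs_pow]
    rw [h3] at h2
    exact mul_le_mul (hPH s) h2 (abs_nonneg _) hH
  refine (Finset.sum_le_sum h1).trans (le_of_eq ?_)
  rw [Finset.sum_const, nsmul_eq_mul]

/-- `P` is a rational constant at `y` -/
def RatAt {r : ℕ} (y : Fin r → AF) (P : MvPolynomial (Fin (r + 1)) ℤ) : Prop :=
  ∃ ρ : ℚ, av y P = (ρ : AF)

theorem joint_polys (x : ℝ) (hx : MeasT (x : ℂ)) (r D : ℕ) : ∃ κ : ℝ, 1 < κ ∧ ∀ (m : ℕ) (T : ℝ),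
    ∃ K : ℝ, 0 ≤ K ∧ ∀ t : Fin r → ℝ, (∀ i, |t i| ≤ T) → ∀ H : ℝ, 1 ≤ H →
      ∀ (P : Fin m → MvPolynomial (Fin (r + 1)) ℤ) (d : Fin m → ℕ),
      (∀ i, (P i).totalDegree ≤ D) → (∀ i s, |(((P i).coeff s : ℤ) : ℝ)| ≤ H) →
      (∀ i, 1 ≤ d i ∧ (d i : ℝ) ≤ H) → (∀ y : Fin r → AF, ∃ i, ¬ RatAt y (P i)) →
      Joint (fun i => rv x t (P i) / d i) κ (K * (1 + Real.log H)) := by
  obtain ⟨κ, hκ, h⟩ := near_ev fn fn_inj (x : ℂ) hx r D
  refine ⟨κ + 1, by linarith, fun m T => ?_⟩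
  obtain ⟨c, hc, h⟩ := h T
  set V : ℝ := 1 + |x| + |T| with hV
  have hV1 : 1 ≤ V := by rw [hV]; linarith [abs_nonneg x, abs_nonneg T]
  set B : ℝ := ((box (r + 1) D).card : ℝ) with hB
  have hB0 : 0 ≤ B := Nat.cast_nonneg _
  set K1 : ℝ := 2 + B * V ^ D with hK1
  have hK11 : 1 ≤ K1 := by
    have : 0 ≤ B * V ^ D := by positivity
    linarith
  have hK10 : 0 < K1 := by linarith
  set c' : ℝ := c * K1 ^ (-κ) with hc'
  have hc'0 : 0 < c' := by positivity
  refine ⟨|Real.log c'| + (κ + 1), by positivity, ?_⟩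
  intro t ht H hH P d hPD hPH hd hirr q p hq
  have hlH : 0 ≤ Real.log H := Real.log_nonneg hH
  have hH0 : 0 < H := by linarith
  by_contra hcon
  push Not at hcon
  have hq1 : ∀ i, (1 : ℝ) ≤ q i := fun i => by exact_mod_cast hq i
  have hq0 : ∀ i, (0 : ℝ) < q i := fun i => by linarith [hq1 i]
  have hd1 : ∀ i, (1 : ℝ) ≤ d i := fun i => by exact_mod_cast (hd i).1
  set W : ℝ := ∏ j, (q j : ℝ) with hW
  have hW1 : 1 ≤ W := by
    rw [hW]
    exact Finset.prod_induction _ (fun z : ℝ => 1 ≤ z) (fun a b ha hb =>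
      one_le_mul_of_one_le_of_one_le ha hb) le_rfl (fun i _ => hq1 i)
  have hW0 : 0 < W := by linarith
  have hqW : ∀ i, (q i : ℝ) ≤ W := by
    intro i
    rw [hW, ← Finset.mul_prod_erase _ _ (Finset.mem_univ i)]
    have : (1 : ℝ) ≤ ∏ j ∈ (Finset.univ : Finset (Fin m)).erase i, (q j : ℝ) :=
      Finset.prod_induction _ (fun z : ℝ => 1 ≤ z) (fun a b ha hb =>
        one_le_mul_of_one_le_of_one_le ha hb) le_rfl (fun i _ => hq1 i)
    nlinarith [hq0 i]
  have hprod : ∏ j, (q j : ℝ) ^ (-(κ + 1)) = W ^ (-(κ + 1)) :=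
    Real.finsetProd_rpow _ _ (fun i _ => (hq0 i).le) _
  rw [hprod] at hcon
  set E : ℝ := Real.exp (-((|Real.log c'| + (κ + 1)) * (1 + Real.log H))) with hE
  have hE0 : 0 < E := Real.exp_pos _
  have hE1 : E ≤ c' * H ^ (-(κ + 1)) := by
    rw [hE, Real.rpow_def_of_pos hH0]
    conv_rhs => rw [← Real.exp_log hc'0]
    rw [← Real.exp_add]
    apply Real.exp_le_exp.2
    have h1 := neg_abs_le (Real.log c')
    have h2 := abs_nonneg (Real.log c')
    nlinarith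
  have hE2 : E ≤ 1 := by
    rw [hE]
    apply Real.exp_le_one_iff.2
    have h2 := abs_nonneg (Real.log c')
    have : 0 ≤ (|Real.log c'| + (κ + 1)) * (1 + Real.log H) := by positivity
    linarith
  have hS1 : E * W ^ (-(κ + 1)) ≤ 1 := by
    have h1 : W ^ (-(κ + 1)) ≤ 1 := Real.rpow_le_one_of_one_le_of_nonpos hW1 (by linarith)
    have h2 : 0 < W ^ (-(κ + 1)) := by positivity
    nlinarith
  have hH'1 : 1 ≤ K1 * H * W :=
    one_le_mul_of_one_le_of_one_le (one_le_mul_of_one_le_of_one_le hK11 hH) hW1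
  obtain ⟨y, hy⟩ := h (fun i => (t i : ℂ)) (fun i => by
    rw [Complex.norm_real, Real.norm_eq_abs]; exact ht i) (K1 * H * W) hH'1
  obtain ⟨i, hi⟩ := hirr y
  set v : ℝ := rv x t (P i) with hv
  have hvle : |v| ≤ B * (H * V ^ D) := rv_le x t T V ht le_rfl D H hH0.le (P i) (hPD i) (hPH i)
  set Q : MvPolynomial (Fin (r + 1)) ℤ :=
    MvPolynomial.C (q i : ℤ) * P i - MvPolynomial.C (p i * d i) with hQ
  have hclose : |v / d i - (p i : ℝ) / q i| < 1 := (hcon i).trans_le hS1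
  have hpd : |((p i * d i : ℤ) : ℝ)| ≤ q i * (|v| + d i) := by
    have e1 : ((p i * d i : ℤ) : ℝ) = q i * v - q i * d i * (v / d i - (p i : ℝ) / q i) := by
      push_cast
      have h1 := (hq0 i).ne'
      have h2 : (d i : ℝ) ≠ 0 := by linarith [hd1 i]
      field_simp
      ring
    rw [e1]
    have h3 : |(q i : ℝ) * v - q i * d i * (v / d i - (p i : ℝ) / q i)| ≤
        |(q i : ℝ) * v| + |(q i : ℝ) * d i * (v / d i - (p i : ℝ) / q i)| := abs_sub _ _
    rw [abs_mul, abs_mul, abs_mul, abs_of_pos (hq0 i), abs_of_nonneg (by linarith [hd1 i] :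
      (0 : ℝ) ≤ d i)] at h3
    have h4 : (q i : ℝ) * d i * |v / d i - (p i : ℝ) / q i| ≤ q i * d i * 1 :=
      mul_le_mul_of_nonneg_left hclose.le (mul_nonneg (hq0 i).le (by linarith [hd1 i]))
    linarith
  have hQdeg : Q.totalDegree ≤ D := by
    refine (MvPolynomial.totalDegree_sub _ _).trans (max_le ?_ ?_)
    · exact (MvPolynomial.totalDegree_mul _ _).trans (by
        rw [MvPolynomial.totalDegree_C, zero_add]; exact hPD i)
    · rw [MvPolynomial.totalDegree_C]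
      exact Nat.zero_le _
  have hQco : ∀ s, |((Q.coeff s : ℤ) : ℝ)| ≤ K1 * H * W := by
    intro s
    have h1 : |((Q.coeff s : ℤ) : ℝ)| ≤ q i * H + |((p i * d i : ℤ) : ℝ)| := by
      rw [hQ, MvPolynomial.coeff_sub, MvPolynomial.coeff_C_mul, MvPolynomial.coeff_C, Int.cast_sub]
      refine (abs_sub _ _).trans ?_
      apply add_le_add
      · rw [Int.cast_mul, abs_mul, Int.cast_natCast, abs_of_pos (hq0 i)]
        exact mul_le_mul_of_nonneg_left (hPH i s) (hq0 i).le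
      · split_ifs
        · exact le_rfl
        · rw [Int.cast_zero, abs_zero]
          exact abs_nonneg _
    have h2 : (q i : ℝ) * (|v| + d i) ≤ q i * (B * (H * V ^ D) + H) :=
      mul_le_mul_of_nonneg_left (by linarith [(hd i).2]) (hq0 i).le
    calc |((Q.coeff s : ℤ) : ℝ)| ≤ q i * H + q i * (B * (H * V ^ D) + H) := by linarith
      _ = K1 * H * q i := by rw [hK1]; ring
      _ ≤ K1 * H * W := mul_le_mul_of_nonneg_left (hqW i) (by positivity)
  have hQne : Q.eval₂ (Int.castRingHom AF) (Fin.cons (fn X) y : Fin (r + 1) → AF) ≠ 0 := by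
    intro h0
    apply hi
    rw [hQ, MvPolynomial.eval₂_sub, MvPolynomial.eval₂_mul, MvPolynomial.eval₂_C,
      MvPolynomial.eval₂_C, sub_eq_zero] at h0
    refine ⟨((p i * d i : ℤ) : ℚ) / q i, ?_⟩
    have hqA : ((q i : ℕ) : AF) ≠ 0 := Nat.cast_ne_zero.2 (by have := hq i; omega)
    rw [av]
    rw [Rat.cast_div, Rat.cast_intCast, Rat.cast_natCast, eq_div_iff hqA, mul_comm]
    simpa using h0
  have h5 := hy Q hQdeg hQco hQne
  rw [rv_complex, Complex.norm_real, Real.norm_eq_abs] at h5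
  have h6 : rv x t Q = q i * d i * (v / d i - (p i : ℝ) / q i) := by
    rw [rv, hQ, MvPolynomial.eval₂_sub, MvPolynomial.eval₂_mul, MvPolynomial.eval₂_C,
      MvPolynomial.eval₂_C]
    have h1 := (hq0 i).ne'
    have h2 : (d i : ℝ) ≠ 0 := by linarith [hd1 i]
    rw [hv, rv]
    simp only [eq_intCast, Int.cast_natCast, Int.cast_mul]
    field_simp
  rw [h6, abs_mul, abs_mul, abs_of_pos (hq0 i), abs_of_nonneg (by linarith [hd1 i] :
    (0 : ℝ) ≤ d i)] at h5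
  have h7 : (q i : ℝ) * d i * |v / d i - (p i : ℝ) / q i| < W * H * (E * W ^ (-(κ + 1))) := by
    have h8 : (q i : ℝ) * d i ≤ W * H := mul_le_mul (hqW i) (hd i).2 (by linarith [hd1 i]) hW0.le
    have h9 : 0 < (q i : ℝ) * d i := mul_pos (hq0 i) (by linarith [hd1 i])
    calc (q i : ℝ) * d i * |v / d i - (p i : ℝ) / q i|
        < (q i : ℝ) * d i * (E * W ^ (-(κ + 1))) := mul_lt_mul_of_pos_left (hcon i) h9
      _ ≤ W * H * (E * W ^ (-(κ + 1))) := mul_le_mul_of_nonneg_right h8 (by positivity)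
  have h10 : W * H * (E * W ^ (-(κ + 1))) ≤ c * (K1 * H * W) ^ (-κ) := by
    rw [Real.mul_rpow (by positivity) hW0.le, Real.mul_rpow hK10.le hH0.le]
    have e1 : W * W ^ (-(κ + 1)) = W ^ (-κ) := by
      nth_rewrite 1 [← Real.rpow_one W]
      rw [← Real.rpow_add hW0]
      congr 1
      ring
    have e2 : H * H ^ (-(κ + 1)) = H ^ (-κ) := by
      nth_rewrite 1 [← Real.rpow_one H]
      rw [← Real.rpow_add hH0]
      congr 1
      ring
    calc W * H * (E * W ^ (-(κ + 1))) = (W * W ^ (-(κ + 1))) * (H * E) := by ring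
      _ = W ^ (-κ) * (H * E) := by rw [e1]
      _ ≤ W ^ (-κ) * (H * (c' * H ^ (-(κ + 1)))) :=
          mul_le_mul_of_nonneg_left (mul_le_mul_of_nonneg_left hE1 hH0.le) (by positivity)
      _ = W ^ (-κ) * (c' * (H * H ^ (-(κ + 1)))) := by ring
      _ = c * (K1 ^ (-κ) * H ^ (-κ) * W ^ (-κ)) := by rw [e2, hc']; ring
  linarith

/-- the errors of `m` machines -/
theorem bound_polys (x : ℝ) (hx : MeasT (x : ℂ)) (r D m : ℕ) (hm : 1 ≤ m) : ∃ μ : ℝ, 1 < μ ∧ ∀ T : ℝ,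
    ∃ C : ℝ, ∀ t : Fin r → ℝ, (∀ i, |t i| ≤ T) → ∀ H : ℝ, 1 ≤ H →
      ∀ (P : Fin m → MvPolynomial (Fin (r + 1)) ℤ) (d : Fin m → ℕ),
      (∀ i, (P i).totalDegree ≤ D) → (∀ i s, |(((P i).coeff s : ℤ) : ℝ)| ≤ H) →
      (∀ i, 1 ≤ d i ∧ (d i : ℝ) ≤ H) → (∀ y : Fin r → AF, ∃ i, ¬ RatAt y (P i)) →
      ∀ b : Fin m → ℕ, (∀ i, 2 ≤ b i) → ∀ (Q : Fin m → Type) [∀ i, Fintype (Q i)]
        (δ : ∀ i, Q i → ℤ → Q i) (g : ∀ i, Q i → ℤ) (q₀ : ∀ i, Q i) (N : Fin m → ℕ) (Λ : ℝ), 0 < Λ →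
        (∀ i, Λ ≤ N i * Real.log (b i)) →
      (Real.log Λ - Real.log ((∑ i, (Fintype.card (Q i) : ℝ) * Real.log (b i)) + Real.log H)) /
        Real.log μ - C ≤
        ((∑ i, err (δ i) (g i) (dg (b i) (rv x t (P i) / d i)) (q₀ i) 0 (N i) : ℕ) : ℝ) := by
  obtain ⟨κ, hκ, h⟩ := joint_polys x hx r D
  have hm1 : (1 : ℝ) ≤ m := by exact_mod_cast hm
  have hρ : 1 < (m : ℝ) * κ := by nlinarith
  have hl2 : 0 < Real.log 2 := Real.log_pos one_lt_two
  have hlρ : 0 < Real.log ((m : ℝ) * κ) := Real.log_pos hρ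
  refine ⟨m * κ, hρ, fun T => ?_⟩
  obtain ⟨K, hK, h⟩ := h m T
  refine ⟨1 + Real.log ((κ + 2) / ((m : ℝ) * κ - 1)) / Real.log ((m : ℝ) * κ) +
    Real.log (1 + (K / Real.log 2 + K)) / Real.log ((m : ℝ) * κ), ?_⟩
  intro t ht H hH P d hPD hPH hd hirr b hb Q _ δ g q₀ N Λ hΛ hN
  have hlH : 0 ≤ Real.log H := Real.log_nonneg hH
  have hcard : ((Fintype.card (Fin m) : ℕ) : ℝ) = (m : ℝ) := by rw [Fintype.card_fin]
  have : Nonempty (Fin m) := ⟨⟨0, hm⟩⟩
  have h1 := main (fun i => rv x t (P i) / d i) b δ g q₀ hb (κ := κ)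
    (D := K * (1 + Real.log H)) (by linarith) (by positivity) (by rw [hcard]; exact hρ)
    (h t ht H hH P d hPD hPH hd hirr) N hΛ hN
  rw [hcard] at h1
  have hZ2 : Real.log 2 ≤ siz b Q := by
    have h2 := (siz_ge b hb q₀ ⟨0, hm⟩).1
    have h3 : Real.log 2 ≤ Real.log (b ⟨0, hm⟩) :=
      Real.log_le_log (by norm_num) (by exact_mod_cast hb ⟨0, hm⟩)
    linarith
  set Z : ℝ := siz b Q with hZ
  change (Real.log Λ - Real.log (Z + Real.log H)) / _ - _ ≤ _
  have hZH : 0 < Z + Real.log H := by linarith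
  have h2 : Real.log (K * (1 + Real.log H) + Z) ≤ Real.log (Z + Real.log H) +
      Real.log (1 + (K / Real.log 2 + K)) := by
    have e1 : K * (1 + Real.log H) + Z ≤ K * (1 + Real.log H) + (Z + Real.log H) := by linarith
    have e0 : 0 ≤ K * (1 + Real.log H) := by positivity
    refine (Real.log_le_log (by linarith) e1).trans ?_
    rw [← Real.log_mul hZH.ne' (by positivity)]
    apply Real.log_le_log (by linarith)
    have e3 : K ≤ K / Real.log 2 * (Z + Real.log H) := by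
      calc K = K / Real.log 2 * Real.log 2 := by field_simp
        _ ≤ _ := mul_le_mul_of_nonneg_left (by linarith) (by positivity)
    nlinarith
  have h3 : (Real.log Λ - (Real.log (Z + Real.log H) +
      Real.log (1 + (K / Real.log 2 + K)))) / Real.log ((m : ℝ) * κ) ≤
      (Real.log Λ - Real.log (K * (1 + Real.log H) + Z)) /
        Real.log ((m : ℝ) * κ) := div_le_div_of_nonneg_right (by linarith) hlρ.le
  have e4 : (Real.log Λ - (Real.log (Z + Real.log H) +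
      Real.log (1 + (K / Real.log 2 + K)))) / Real.log ((m : ℝ) * κ) =
      (Real.log Λ - Real.log (Z + Real.log H)) / Real.log ((m : ℝ) * κ) -
      Real.log (1 + (K / Real.log 2 + K)) / Real.log ((m : ℝ) * κ) := by ring
  linarith

end Pool.Agent.V11118.ZR
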