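import Mathlib
import Pool.Agent.V11118.ZR.Many

/-! Finitely many polynomials of a set of polynomials of bounded degree decide where all are rational. -/

set_option autoImplicit false

namespace Pool.Agent.V11118.ZR

open Finset Pool.Agent Polynomial
open Pool.Agent.V11210.NA (AF fn fn_inj box)

lemma sel {r D : ℕ} (S : Set (MvPolynomial (Fin (r + 1)) ℤ)) (P0 : MvPolynomial (Fin (r + 1)) ℤ)
    (h0 : P0 ∈ S) (hS : ∀ P ∈ S, P.totalDegree ≤ D) :
    ∃ f : Fin (box (r + 1) D).card → MvPolynomial (Fin (r + 1)) ℤ, (∀ j, f j ∈ S) ∧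
      ∀ y : Fin r → AF, (∀ j, RatAt y (f j)) → ∀ P ∈ S, RatAt y P := by
  classical
  set v : MvPolynomial (Fin (r + 1)) ℤ → (box (r + 1) D → ℚ) := fun P s =>
    ((P.coeff s : ℤ) : ℚ) with hv
  obtain ⟨b, hbS, -, hspan, hli⟩ := exists_linearIndepOn_extension (K := ℚ) (v := v)
    (s := ∅) (t := S) (linearIndepOn_empty ℚ v) (Set.empty_subset _)
  have hfin : Finite b := LinearIndependent.finite_of_isNoetherian hli
  let : Fintype b := Fintype.ofFinite b
  have hcard : Fintype.card b ≤ Fintype.card (Fin (box (r + 1) D).card) := by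
    have h1 := LinearIndependent.fintype_card_le_finrank hli
    rw [Module.finrank_fintype_fun_eq_card, Fintype.card_coe] at h1
    rw [Fintype.card_fin]
    exact h1
  obtain ⟨e⟩ := Function.Embedding.nonempty_of_card_le hcard
  refine ⟨fun j => if h : ∃ q : b, e q = j then (h.choose : MvPolynomial (Fin (r + 1)) ℤ) else P0,
    fun j => ?_, fun y hy P hP => ?_⟩
  · dsimp only
    split_ifs with h
    · exact hbS h.choose.2
    · exact h0
  · let lam : (box (r + 1) D → ℚ) →ₗ[ℚ] AF :=
      ∑ s : box (r + 1) D, (LinearMap.toSpanSingleton ℚ AF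
        (∏ i, (Fin.cons (fn X) y : Fin (r + 1) → AF) i ^ (s : Fin (r + 1) →₀ ℕ) i)).comp
          (LinearMap.proj s)
    have hlam : ∀ P ∈ S, av y P = lam (v P) := by
      intro P hP
      rw [av, Pool.Agent.V11210.NA.eval₂_eq_sum _ _ (hS P hP), ← Finset.sum_coe_sort (box (r + 1) D)]
      simp only [lam, LinearMap.sum_apply, LinearMap.comp_apply, LinearMap.proj_apply,
        LinearMap.toSpanSingleton_apply, hv]
      refine Finset.sum_congr rfl fun s _ => ?_
      rw [Algebra.smul_def]
      simp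
    have hrat : ∀ P ∈ S, (RatAt y P ↔ lam (v P) ∈ LinearMap.range (Algebra.linearMap ℚ AF)) := by
      intro P hP
      rw [RatAt, hlam P hP, LinearMap.mem_range]
      constructor
      · rintro ⟨ρ, h⟩
        exact ⟨ρ, by rw [h, Algebra.linearMap_apply]; simp⟩
      · rintro ⟨ρ, h⟩
        exact ⟨ρ, by rw [← h, Algebra.linearMap_apply]; simp⟩
    have hb : ∀ q ∈ b, lam (v q) ∈ LinearMap.range (Algebra.linearMap ℚ AF) := by
      intro q hq
      rw [← hrat q (hbS hq)]
      have h1 := hy (e ⟨q, hq⟩)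
      have h2 : ∃ q' : b, e q' = e ⟨q, hq⟩ := ⟨_, rfl⟩
      dsimp only at h1
      rw [dif_pos h2, e.injective h2.choose_spec] at h1
      exact h1
    rw [hrat P hP]
    have h2 : Submodule.span ℚ (v '' b) ≤
        (LinearMap.range (Algebra.linearMap ℚ AF)).comap lam := by
      rw [Submodule.span_le]
      rintro _ ⟨q, hq, rfl⟩
      exact hb q hq
    exact h2 (hspan ⟨P, hP, rfl⟩)

end Pool.Agent.V11118.ZR
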