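import Mathlib
import Pool.Agent.V11015.FS.Poly
import Pool.Agent.TH456.TM.AlgDep

/-! Joint measures for `τ π^k` and `(a/b) (τ π^l)^(-2)`. -/

set_option autoImplicit false

namespace Pool.Agent.V11118.ZR

open Finset Pool.Agent Polynomial Pool.Agent.TH456.TM Pool.Agent.V11015.FS

lemma pi_ne : (Real.pi : ℂ) ≠ 0 := Complex.ofReal_ne_zero.2 Real.pi_ne_zero

/-- joint measures for `t π^k`, `t π^l`, `k ≠ l` -/
theorem mul_joint (n : ℕ) (S : Finset ℤ) :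
    ∃ κ : ℝ, 0 < κ ∧ ∀ t : ℝ, t ≠ 0 → ∃ c : ℝ, 0 < c ∧ ∀ k ∈ S, ∀ l ∈ S, k ≠ l →
      JointAlg n κ c (t * Real.pi ^ k) (t * Real.pi ^ l) := by
  have hpi := measT_pi
  have hu : ∀ i ∈ S, ∀ j ∈ S, i ≠ j → MeasT ((Real.pi : ℂ) ^ j / (Real.pi : ℂ) ^ i) := by
    intro i hi j hj hij
    rw [← zpow_sub₀ pi_ne]
    exact measT_zpow hpi (j - i) (sub_ne_zero.2 (Ne.symm hij))
  obtain ⟨κ, hκ, h⟩ := fam_mul S (fun k => (Real.pi : ℂ) ^ k)
    (fun k hk => zpow_ne_zero _ pi_ne) hu (Real.pi : ℂ) hpi n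
  refine ⟨κ, hκ, fun t ht0 => ?_⟩
  obtain ⟨c, hc, h1, -⟩ := h (t : ℂ) (Complex.ofReal_ne_zero.2 ht0)
  refine ⟨c, hc, fun k hk l hl hkl => ?_⟩
  intro P Q hP hQ hPn hQn H hPH hQH
  have h2 := h1 k hk l hl hkl P Q hP hQ hPn hQn H hPH hQH
  have e1 : ∀ j : ℤ, (t : ℂ) * (Real.pi : ℂ) ^ j = ((t * Real.pi ^ j : ℝ) : ℂ) := fun j => by
    push_cast; rfl
  rw [e1, e1, ← abs_aeval, ← abs_aeval] at h2
  exact h2

/-- the polynomial `b^D X^(2D) Q(a / (b X^2))` -/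
noncomputable def inv2 (D : ℕ) (a : ℤ) (b : ℕ) (Q : ℤ[X]) : ℤ[X] :=
  ∑ i ∈ range (D + 1), C (Q.coeff i * a ^ i * (b : ℤ) ^ (D - i)) * X ^ (2 * (D - i))

lemma inv2_coeff (D : ℕ) (a : ℤ) (b : ℕ) (Q : ℤ[X]) (m : ℕ) : (inv2 D a b Q).coeff m =
    ∑ i ∈ range (D + 1), if m = 2 * (D - i) then Q.coeff i * a ^ i * (b : ℤ) ^ (D - i) else 0 := by
  unfold inv2
  rw [finsetSum_coeff]
  refine Finset.sum_congr rfl fun i _ => ?_
  rw [coeff_C_mul, coeff_X_pow]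
  split_ifs <;> simp

lemma inv2_ne (D : ℕ) (a : ℤ) (b : ℕ) (ha : a ≠ 0) (hb : b ≠ 0) (Q : ℤ[X]) (hQ : Q ≠ 0)
    (hQD : Q.natDegree ≤ D) : inv2 D a b Q ≠ 0 := by
  intro h0
  have hi : Q.natDegree ∈ range (D + 1) := by rw [mem_range]; omega
  have h1 : (inv2 D a b Q).coeff (2 * (D - Q.natDegree)) =
      Q.coeff Q.natDegree * a ^ Q.natDegree * (b : ℤ) ^ (D - Q.natDegree) := by
    rw [inv2_coeff, Finset.sum_eq_single Q.natDegree]
    · rw [if_pos rfl]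
    · intro j hj hne
      rw [mem_range] at hj
      rw [if_neg]
      omega
    · intro h
      exact absurd hi h
  rw [h0, coeff_zero] at h1
  have h2 : Q.coeff Q.natDegree ≠ 0 := by
    rw [coeff_natDegree]
    exact leadingCoeff_ne_zero.2 hQ
  have h3 : Q.coeff Q.natDegree * a ^ Q.natDegree * (b : ℤ) ^ (D - Q.natDegree) ≠ 0 :=
    mul_ne_zero (mul_ne_zero h2 (pow_ne_zero _ ha))
      (pow_ne_zero _ (by exact_mod_cast hb))
  exact h3 h1.symm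

lemma inv2_deg (D : ℕ) (a : ℤ) (b : ℕ) (Q : ℤ[X]) : (inv2 D a b Q).natDegree ≤ 2 * D := by
  unfold inv2
  refine natDegree_sum_le_of_forall_le _ _ fun i _ => ?_
  exact (natDegree_C_mul_X_pow_le _ _).trans (by omega)

lemma inv2_eval (D : ℕ) (a : ℤ) (b : ℕ) (hb : b ≠ 0) (Q : ℤ[X]) (hQD : Q.natDegree ≤ D) (u : ℝ)
    (hu : u ≠ 0) : aeval u (inv2 D a b Q) =
      ((b : ℝ) ^ D * u ^ (2 * D)) * aeval ((a : ℝ) / b / u ^ 2) Q := by
  have hb' : (b : ℝ) ≠ 0 := by exact_mod_cast hb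
  rw [Polynomial.aeval_eq_sum_range' (show Q.natDegree < D + 1 by omega) ((a : ℝ) / b / u ^ 2)]
  unfold inv2
  rw [map_sum, Finset.mul_sum]
  refine Finset.sum_congr rfl fun i hi => ?_
  rw [mem_range] at hi
  have hiD : i ≤ D := by omega
  rw [map_mul, map_pow, aeval_X, aeval_C, zsmul_eq_mul]
  simp only [algebraMap_int_eq, eq_intCast, Int.cast_mul, Int.cast_pow, Int.cast_natCast]
  have e1 : (b : ℝ) ^ D = (b : ℝ) ^ (D - i) * (b : ℝ) ^ i := by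
    rw [← pow_add, Nat.sub_add_cancel hiD]
  have e2 : u ^ (2 * D) = u ^ (2 * (D - i)) * (u ^ 2) ^ i := by
    rw [← pow_mul, ← pow_add]
    congr 1
    omega
  rw [e1, e2, div_pow, div_pow]
  field_simp

lemma inv2_ht (D : ℕ) (a : ℤ) (b : ℕ) (hb : b ≠ 0) (Q : ℤ[X]) (H : ℝ)
    (hQH : (ht Q : ℝ) ≤ H) : (ht (inv2 D a b Q) : ℝ) ≤
      (((D : ℝ) + 1) * ((1 + |(a : ℝ)|) ^ D * (b : ℝ) ^ D)) * H := by
  have hb1 : (1 : ℝ) ≤ b := by exact_mod_cast Nat.one_le_iff_ne_zero.2 hb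
  have hH0 : 0 ≤ H := (Nat.cast_nonneg _).trans hQH
  have ha1 : (1 : ℝ) ≤ 1 + |(a : ℝ)| := by linarith [abs_nonneg (a : ℝ)]
  refine V11015.FS.ht_le (by positivity) fun m => ?_
  rw [inv2_coeff]
  push_cast
  refine (Finset.abs_sum_le_sum_abs _ _).trans ?_
  have h1 : ∀ i ∈ range (D + 1), |((if m = 2 * (D - i) then
      (Q.coeff i : ℝ) * (a : ℝ) ^ i * (b : ℝ) ^ (D - i) else 0 : ℝ))| ≤
      ((1 + |(a : ℝ)|) ^ D * (b : ℝ) ^ D) * H := by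
    intro i hi
    rw [mem_range] at hi
    split_ifs with h
    · rw [abs_mul, abs_mul, abs_pow, abs_pow, abs_of_nonneg (by linarith : (0 : ℝ) ≤ b)]
      have h2 : |(Q.coeff i : ℝ)| ≤ H := (le_ht Q i).trans hQH
      have h3 : |(a : ℝ)| ^ i ≤ (1 + |(a : ℝ)|) ^ D :=
        (pow_le_pow_left₀ (abs_nonneg _) (by linarith) i).trans
          (pow_le_pow_right₀ ha1 (by omega))
      have h4 : (b : ℝ) ^ (D - i) ≤ (b : ℝ) ^ D := pow_le_pow_right₀ hb1 (by omega)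
      calc |(Q.coeff i : ℝ)| * |(a : ℝ)| ^ i * (b : ℝ) ^ (D - i)
          ≤ H * (1 + |(a : ℝ)|) ^ D * (b : ℝ) ^ D := by
            apply mul_le_mul (mul_le_mul h2 h3 (by positivity) hH0) h4 (by positivity)
              (by positivity)
        _ = _ := by ring
    · rw [abs_zero]
      positivity
  refine (Finset.sum_le_sum h1).trans (le_of_eq ?_)
  rw [Finset.sum_const, Finset.card_range, nsmul_eq_mul]
  push_cast
  ring

/-- joint measure for `v` and `w = (a / b) / u ^ 2` -/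
theorem joint_inv (D : ℕ) (κ c v u : ℝ) (_hκ : 0 < κ) (hc : 0 < c) (hu : u ≠ 0) (a : ℤ) (b : ℕ)
    (ha : a ≠ 0) (hb : b ≠ 0) (h : JointAlg (2 * D) κ c v u) :
    ∃ c' : ℝ, 0 < c' ∧ JointAlg D κ c' v ((a : ℝ) / b / u ^ 2) := by
  have hb1 : (1 : ℝ) ≤ b := by exact_mod_cast Nat.one_le_iff_ne_zero.2 hb
  have ha1 : (1 : ℝ) ≤ 1 + |(a : ℝ)| := by linarith [abs_nonneg (a : ℝ)]
  set A : ℝ := ((D : ℝ) + 1) * ((1 + |(a : ℝ)|) ^ D * (b : ℝ) ^ D) with hA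
  have hA1 : 1 ≤ A := by
    have h1 : 1 ≤ (1 + |(a : ℝ)|) ^ D := one_le_pow₀ ha1
    have h2 : 1 ≤ (b : ℝ) ^ D := one_le_pow₀ hb1
    have h3 : (1 : ℝ) ≤ (D : ℝ) + 1 := by linarith [Nat.cast_nonneg (α := ℝ) D]
    exact one_le_mul_of_one_le_of_one_le h3 (one_le_mul_of_one_le_of_one_le h1 h2)
  have hA0 : 0 < A := by linarith
  set B : ℝ := 1 + |(b : ℝ) ^ D * u ^ (2 * D)| with hB
  have hB1 : 1 ≤ B := by rw [hB]; linarith [abs_nonneg ((b : ℝ) ^ D * u ^ (2 * D))]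
  have hB0 : 0 < B := by linarith
  refine ⟨c * A ^ (-κ) / B, by positivity, ?_⟩
  intro P Q hP hQ hPn hQn H hPH hQH
  have hH0 : 0 ≤ H := (Nat.cast_nonneg _).trans hQH
  have h1 := h P (inv2 D a b Q) hP (inv2_ne D a b ha hb Q hQ hQn) (by omega) (inv2_deg D a b Q)
    (A * H) (hPH.trans (by nlinarith)) (inv2_ht D a b hb Q H hQH)
  rw [inv2_eval D a b hb Q hQn u hu, abs_mul, Real.mul_rpow hA0.le hH0] at h1
  set x : ℝ := |aeval v P| with hx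
  set y : ℝ := |aeval ((a : ℝ) / b / u ^ 2) Q| with hy
  have hx0 : 0 ≤ x := abs_nonneg _
  have hy0 : 0 ≤ y := abs_nonneg _
  have h2 : max x (|(b : ℝ) ^ D * u ^ (2 * D)| * y) ≤ B * max x y := by
    apply max_le
    · calc x = 1 * x := (one_mul x).symm
        _ ≤ B * max x y := mul_le_mul hB1 (le_max_left _ _) hx0 hB0.le
    · apply mul_le_mul _ (le_max_right _ _) hy0 hB0.le
      rw [hB]
      linarith
  have h3 : c * (A ^ (-κ) * H ^ (-κ)) ≤ B * max x y := h1.trans h2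
  rw [div_mul_eq_mul_div, div_le_iff₀ hB0]
  calc c * A ^ (-κ) * H ^ (-κ) = c * (A ^ (-κ) * H ^ (-κ)) := by ring
    _ ≤ B * max x y := h3
    _ = max x y * B := mul_comm _ _

end Pool.Agent.V11118.ZR
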