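import Mathlib
import Pool.Agent.V11118.ZR.Joint
import Pool.Agent.TH456.TM.E

/-! Joint measures of `v` and `w`, if `v w` is an algebraic multiple of a power of `π`. -/

set_option autoImplicit false

namespace Pool.Agent.V11118.ZR

open Finset Pool.Agent Polynomial Pool.Agent.TH456.TM Pool.Agent.V11015.FS

/-- the polynomial `X^D Q(1 / X)` -/
noncomputable def inv1 (D : ℕ) (Q : ℤ[X]) : ℤ[X] :=
  ∑ i ∈ range (D + 1), C (Q.coeff i) * X ^ (D - i)

lemma inv1_coeff (D : ℕ) (Q : ℤ[X]) (m : ℕ) : (inv1 D Q).coeff m =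
    ∑ i ∈ range (D + 1), if m = D - i then Q.coeff i else 0 := by
  unfold inv1
  rw [finsetSum_coeff]
  refine Finset.sum_congr rfl fun i _ => ?_
  rw [coeff_C_mul, coeff_X_pow]
  split_ifs <;> simp

lemma inv1_ne (D : ℕ) (Q : ℤ[X]) (hQ : Q ≠ 0) (hQD : Q.natDegree ≤ D) : inv1 D Q ≠ 0 := by
  intro h0
  have hi : Q.natDegree ∈ range (D + 1) := by rw [mem_range]; omega
  have h1 : (inv1 D Q).coeff (D - Q.natDegree) = Q.coeff Q.natDegree := by
    rw [inv1_coeff, Finset.sum_eq_single Q.natDegree]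
    · rw [if_pos rfl]
    · intro j hj hne
      rw [mem_range] at hj
      rw [if_neg]
      omega
    · intro h
      exact absurd hi h
  rw [h0, coeff_zero] at h1
  have h2 : Q.coeff Q.natDegree ≠ 0 := by
    rw [coeff_natDegree]
    exact leadingCoeff_ne_zero.2 hQ
  exact h2 h1.symm

lemma inv1_deg (D : ℕ) (Q : ℤ[X]) : (inv1 D Q).natDegree ≤ D := by
  unfold inv1
  refine natDegree_sum_le_of_forall_le _ _ fun i _ => ?_
  exact (natDegree_C_mul_X_pow_le _ _).trans (by omega)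

lemma inv1_eval (D : ℕ) (Q : ℤ[X]) (hQD : Q.natDegree ≤ D) (u : ℝ)
    (hu : u ≠ 0) : aeval u (inv1 D Q) = u ^ D * aeval (1 / u) Q := by
  rw [Polynomial.aeval_eq_sum_range' (show Q.natDegree < D + 1 by omega) (1 / u)]
  unfold inv1
  rw [map_sum, Finset.mul_sum]
  refine Finset.sum_congr rfl fun i hi => ?_
  rw [mem_range] at hi
  have hiD : i ≤ D := by omega
  rw [map_mul, map_pow, aeval_X, aeval_C, zsmul_eq_mul]
  simp only [algebraMap_int_eq, eq_intCast]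
  have e2 : u ^ D = u ^ (D - i) * u ^ i := by
    rw [← pow_add, Nat.sub_add_cancel hiD]
  rw [e2, div_pow, one_pow]
  field_simp

lemma inv1_ht (D : ℕ) (Q : ℤ[X]) (H : ℝ) (hQH : (ht Q : ℝ) ≤ H) :
    (ht (inv1 D Q) : ℝ) ≤ ((D : ℝ) + 1) * H := by
  have hH0 : 0 ≤ H := (Nat.cast_nonneg _).trans hQH
  refine V11015.FS.ht_le (by positivity) fun m => ?_
  rw [inv1_coeff]
  push_cast
  refine (Finset.abs_sum_le_sum_abs _ _).trans ?_
  have h1 : ∀ i ∈ range (D + 1), |((if m = D - i then (Q.coeff i : ℝ) else 0 : ℝ))| ≤ H := by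
    intro i hi
    split_ifs with h
    · exact (le_ht Q i).trans hQH
    · rw [abs_zero]
      exact hH0
  refine (Finset.sum_le_sum h1).trans (le_of_eq ?_)
  rw [Finset.sum_const, Finset.card_range, nsmul_eq_mul]
  push_cast
  ring

/-- joint measure for `v` and `1 / u` -/
theorem joint_inv1 (D : ℕ) (κ c v u : ℝ) (hc : 0 < c) (hu : u ≠ 0) (h : JointAlg D κ c v u) :
    ∃ c' : ℝ, 0 < c' ∧ JointAlg D κ c' v (1 / u) := by
  set A : ℝ := (D : ℝ) + 1 with hA
  have hA1 : 1 ≤ A := by rw [hA]; linarith [Nat.cast_nonneg (α := ℝ) D]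
  have hA0 : 0 < A := by linarith
  set B : ℝ := 1 + |u ^ D| with hB
  have hB1 : 1 ≤ B := by rw [hB]; linarith [abs_nonneg (u ^ D)]
  have hB0 : 0 < B := by linarith
  refine ⟨c * A ^ (-κ) / B, by positivity, ?_⟩
  intro P Q hP hQ hPn hQn H hPH hQH
  have hH0 : 0 ≤ H := (Nat.cast_nonneg _).trans hQH
  have h1 := h P (inv1 D Q) hP (inv1_ne D Q hQ hQn) hPn (inv1_deg D Q)
    (A * H) (hPH.trans (by nlinarith)) (inv1_ht D Q H hQH)
  rw [inv1_eval D Q hQn u hu, abs_mul, Real.mul_rpow hA0.le hH0] at h1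
  set x : ℝ := |aeval v P| with hx
  set y : ℝ := |aeval (1 / u) Q| with hy
  have hx0 : 0 ≤ x := abs_nonneg _
  have hy0 : 0 ≤ y := abs_nonneg _
  have h2 : max x (|u ^ D| * y) ≤ B * max x y := by
    apply max_le
    · calc x = 1 * x := (one_mul x).symm
        _ ≤ B * max x y := mul_le_mul hB1 (le_max_left _ _) hx0 hB0.le
    · apply mul_le_mul _ (le_max_right _ _) hy0 hB0.le
      rw [hB]
      linarith
  have h3 : c * (A ^ (-κ) * H ^ (-κ)) ≤ B * max x y := h1.trans h2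
  rw [div_mul_eq_mul_div, div_le_iff₀ hB0]
  calc c * A ^ (-κ) * H ^ (-κ) = c * (A ^ (-κ) * H ^ (-κ)) := by ring
    _ ≤ B * max x y := h3
    _ = max x y * B := mul_comm _ _

/-- `v w = β π^s`, `β ≠ 0` algebraic, `s ≠ 0` rational: `v` and `w` have a joint measure; the exponent
does not depend on `v` and `w`. -/
theorem joint_prod (D : ℕ) (β : ℝ) (hβ : IsAlgebraic ℚ β) (hβ0 : β ≠ 0) (s : ℚ) (hs : s ≠ 0) :
    ∃ κ : ℝ, 0 < κ ∧ ∀ v w : ℝ, v * w = β * Real.pi ^ (s : ℝ) → ∃ c : ℝ, 0 < c ∧ JointAlg D κ c v w := by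
  have hp0 : 0 < Real.pi ^ (s : ℝ) := Real.rpow_pos_of_pos Real.pi_pos _
  set γ : ℝ := β * Real.pi ^ (s : ℝ) with hγ
  have hγ0 : γ ≠ 0 := mul_ne_zero hβ0 hp0.ne'
  have hm : MeasT (γ : ℂ) := by
    have h1 := measT_rpow Real.pi Real.pi_pos measT_pi s hs
    have h2 : IsAlgebraic ℤ (β : ℂ) := by
      have h3 : IsAlgebraic ℤ β := (IsFractionRing.isAlgebraic_iff ℤ ℚ ℝ).2 hβ
      exact h3.algebraMap (A := ℂ)
    have h4 := measT_mul_alg h1 (β : ℂ) h2 (Complex.ofReal_ne_zero.2 hβ0)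
    have e : ((Real.pi ^ (s : ℝ) : ℝ) : ℂ) * (β : ℂ) = (γ : ℂ) := by
      rw [hγ]
      push_cast
      ring
    rwa [e] at h4
  have hmi : MeasT ((γ : ℂ)⁻¹) := measT_inv hm
  have hγc : (γ : ℂ) ≠ 0 := Complex.ofReal_ne_zero.2 hγ0
  obtain ⟨κ, hκ, h⟩ := fam_mul ({0, 1} : Finset ℕ) (fun k => if k = 0 then (1 : ℂ) else (γ : ℂ)⁻¹)
    (fun k _ => by
      split_ifs
      · exact one_ne_zero
      · exact inv_ne_zero hγc) (fun i hi j hj hij => by
      rw [mem_insert, mem_singleton] at hi hj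
      rcases hi with rfl | rfl <;> rcases hj with rfl | rfl
      · exact absurd rfl hij
      · simpa using hmi
      · simpa using hm
      · exact absurd rfl hij) _ hm D
  refine ⟨κ, hκ, fun v w hvw => ?_⟩
  have hv : v ≠ 0 := by
    rintro rfl
    rw [zero_mul] at hvw
    exact hγ0 hvw.symm
  obtain ⟨c, hc, h1, -⟩ := h (v : ℂ) (Complex.ofReal_ne_zero.2 hv)
  have hJ : JointAlg D κ c v (v * γ⁻¹) := by
    intro P Q hP hQ hPn hQn H hPH hQH
    have h2 := h1 0 (by simp) 1 (by simp) (by norm_num) P Q hP hQ hPn hQn H hPH hQH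
    simp only [if_true, one_ne_zero, if_false, mul_one] at h2
    have e1 : (v : ℂ) * (γ : ℂ)⁻¹ = ((v * γ⁻¹ : ℝ) : ℂ) := by push_cast; rfl
    rw [e1, ← abs_aeval, ← abs_aeval] at h2
    exact h2
  have hw : w = 1 / (v * γ⁻¹) := by
    rw [← hvw]
    have hw0 : w ≠ 0 := by
      rintro rfl
      rw [mul_zero] at hvw
      exact hγ0 hvw.symm
    field_simp
  rw [hw]
  exact joint_inv1 D κ c v _ hc (mul_ne_zero hv (inv_ne_zero hγ0)) hJ

end Pool.Agent.V11118.ZR
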