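import Mathlib
import Pool.Agent.V11118.ZR.Joint

/-! Joint measures of `ζ(n) π^k` and `ζ(2n) / ζ(n)²`. -/

set_option autoImplicit false

namespace Pool.Agent.V11118.ZR

open Finset Pool.Agent Polynomial Pool.Agent.V11015.FS

/-- `ζ(s) = ∑ 1 / k ^ s` -/
noncomputable def zt (s : ℕ) : ℝ := ∑' k : ℕ, 1 / ((k : ℝ) + 1) ^ s

/-- `t(n) = ζ(2n) / ζ(n) ^ 2` -/
noncomputable def tt (n : ℕ) : ℝ := zt (2 * n) / zt n ^ 2

theorem zeta_pos {s : ℕ} (hs : 2 ≤ s) : 0 < zt s := by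
  have h : Summable fun n : ℕ => 1 / ((n : ℝ) + 1) ^ s := by
    have := (summable_nat_add_iff 1).2 (Real.summable_one_div_nat_pow.2 (by omega : 1 < s))
    simpa using this
  exact h.tsum_pos (fun n => by positivity) 0 (by norm_num)

/-- Euler: `ζ(2n)` is a rational multiple of `π ^ (2n)`. -/
theorem zeta_even {n : ℕ} (hn : n ≠ 0) : ∃ r : ℚ, r ≠ 0 ∧ zt (2 * n) = r * Real.pi ^ (2 * n) := by
  have h := hasSum_zeta_nat hn
  have h1 : zt (2 * n) = (-1 : ℝ) ^ (n + 1) * (2 : ℝ) ^ (2 * n - 1) * Real.pi ^ (2 * n) *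
      _root_.bernoulli (2 * n) / (2 * n).factorial := by
    rw [← h.tsum_eq, h.summable.tsum_eq_zero_add]
    unfold zt
    have : (1 : ℝ) / ((0 : ℕ) : ℝ) ^ (2 * n) = 0 := by
      rw [Nat.cast_zero, zero_pow (by omega), div_zero]
    rw [this, zero_add]
    simp only [Nat.cast_add, Nat.cast_one]
  have h2 : zt (2 * n) = (((-1 : ℚ) ^ (n + 1) * (2 : ℚ) ^ (2 * n - 1) *
      _root_.bernoulli (2 * n) / (2 * n).factorial : ℚ) : ℝ) * Real.pi ^ (2 * n) := by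
    rw [h1]
    push_cast
    ring
  refine ⟨_, ?_, h2⟩
  intro h0
  rw [h0, Rat.cast_zero, zero_mul] at h2
  exact (zeta_pos (by omega : 2 ≤ 2 * n)).ne' h2

theorem t_eq {n : ℕ} (hn : 2 ≤ n) : ∃ (a : ℤ) (b : ℕ), a ≠ 0 ∧ b ≠ 0 ∧
    tt n = (a : ℝ) / b / (zt n * Real.pi ^ (-(n : ℤ))) ^ 2 := by
  obtain ⟨r, hr, h⟩ := zeta_even (by omega : n ≠ 0)
  refine ⟨r.num, r.den, Rat.num_ne_zero.2 hr, r.den_ne_zero, ?_⟩
  have hr' : ((r.num : ℝ)) / (r.den : ℝ) = (r : ℝ) := by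
    conv_rhs => rw [← Rat.num_div_den r]
    push_cast
    rfl
  rw [hr', tt, h]
  have hz := (zeta_pos hn).ne'
  have hp := Real.pi_ne_zero
  rw [zpow_neg, zpow_natCast]
  field_simp
  ring

/-- joint measures for the pairs `ζ(n) π^k`, `t(n)` -/
theorem joint (D n : ℕ) (hn : 2 ≤ n) (S : Finset ℤ) (hS : -(n : ℤ) ∉ S) : ∃ κ c : ℝ, 0 < κ ∧ 0 < c ∧
    ∀ k ∈ S, V11015.FS.JointAlg D κ c (zt n * Real.pi ^ k) (tt n) := by
  classical
  obtain ⟨κ, hκ, h⟩ := mul_joint (2 * D) (insert (-(n : ℤ)) S)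
  obtain ⟨c, hc, h⟩ := h (zt n) (zeta_pos hn).ne'
  obtain ⟨a, b, ha, hb, ht⟩ := t_eq hn
  have hu : zt n * Real.pi ^ (-(n : ℤ)) ≠ 0 :=
    mul_ne_zero (zeta_pos hn).ne' (zpow_ne_zero _ Real.pi_ne_zero)
  have h2 : ∀ k : S, ∃ c' : ℝ, 0 < c' ∧
      V11015.FS.JointAlg D κ c' (zt n * Real.pi ^ (k : ℤ)) (tt n) := by
    intro k
    rw [ht]
    exact joint_inv D κ c _ _ hκ hc hu a b ha hb
      (h k (mem_insert_of_mem k.2) (-(n : ℤ)) (mem_insert_self _ _)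
        (fun he => hS (he ▸ k.2)))
  choose f hf0 hf using h2
  rcases S.eq_empty_or_nonempty with hSe | hSn
  · exact ⟨κ, 1, hκ, one_pos, fun k hk => by rw [hSe] at hk; exact absurd hk (notMem_empty k)⟩
  · have hne : (univ : Finset S).Nonempty := by
      obtain ⟨k, hk⟩ := hSn
      exact ⟨⟨k, hk⟩, mem_univ _⟩
    refine ⟨κ, (univ : Finset S).inf' hne f, hκ, (lt_inf'_iff _).2 fun k _ => hf0 k, ?_⟩
    intro k hk P Q hP hQ hPn hQn H hPH hQH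
    have h3 := hf ⟨k, hk⟩ P Q hP hQ hPn hQn H hPH hQH
    have h4 : (univ : Finset S).inf' hne f ≤ f ⟨k, hk⟩ := inf'_le _ (mem_univ _)
    have hH0 : 0 ≤ H := (Nat.cast_nonneg _).trans hQH
    exact (mul_le_mul_of_nonneg_right h4 (Real.rpow_nonneg hH0 _)).trans h3

/-- a single measure, if `t(n)` is algebraic -/
theorem single (D n : ℕ) (hn : 2 ≤ n) (k : ℤ) (hk : k ≠ -(n : ℤ)) (ht : IsAlgebraic ℚ (tt n)) :
    ∃ κ c : ℝ, 0 < κ ∧ 0 < c ∧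
      V11015.FS.JointAlg D κ c (zt n * Real.pi ^ k) (zt n * Real.pi ^ k) := by
  obtain ⟨Q, hQ0, hQ⟩ := (IsFractionRing.isAlgebraic_iff ℤ ℚ ℝ).2 ht
  obtain ⟨κ, c, hκ, hc, h⟩ := joint (max D Q.natDegree) n hn {k}
    (by rw [mem_singleton]; exact fun h => hk h.symm)
  have h := h k (mem_singleton_self k)
  have hq : (0 : ℝ) ≤ TH456.TM.ht Q := Nat.cast_nonneg _
  refine ⟨κ, c * (1 + TH456.TM.ht Q) ^ (-κ), hκ, by positivity, ?_⟩
  intro P P' hP hP' hPn hPn' H hPH hPH'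
  have hH1 : (1 : ℝ) ≤ H := by
    refine le_trans ?_ hPH
    exact_mod_cast TH456.TM.ht_pos P hP
  have h1 := h P Q hP hQ0 (hPn.trans (le_max_left _ _)) (le_max_right _ _)
    ((1 + TH456.TM.ht Q) * H) (hPH.trans (by nlinarith)) (by nlinarith)
  rw [hQ, abs_zero, max_eq_left (abs_nonneg _), Real.mul_rpow (by positivity) (by linarith)] at h1
  calc c * (1 + (TH456.TM.ht Q : ℝ)) ^ (-κ) * H ^ (-κ)
      = c * ((1 + (TH456.TM.ht Q : ℝ)) ^ (-κ) * H ^ (-κ)) := by ring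
    _ ≤ _ := h1
    _ ≤ _ := le_max_left _ _

end Pool.Agent.V11118.ZR
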